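import Pool.Agent.CMFn.ReflM

/-! Martino's conjecture (Rouquier families refine Calogero-Moser families) for all irreducible
complex reflection groups of rank 2 (in particular G4, ..., G22) and for all exceptional groups of
rank at least 3 (G23, ..., G37), at all parameters with values in any field of characteristic
zero. -/

namespace Pool.Agent.Results.MP_4af2a6_al.Refl

open Pool.Agent.CMFP

theorem result (n : ℕ) (G : Type) [Group G] [Fintype G] (K : Type) [Field K] [CharZero K]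
    (V : G → Matrix (Fin n) (Fin n) K) (hV : IsReflGroup V)
    (W : G → Matrix (Fin n) (Fin n) ℂ) (hW : IsReflGroup W) (hE : n = 2 ∨ IsExc W)
    (F : Type) [Field F] [Algebra F K] [Algebra F ℂ]
    (hF : (algebraMap F ℂ).fieldRange = Subfield.closure (Set.range fun g => (W g).trace))
    (hVW : SameChar F V W) (Λ : Type) [Fintype Λ] (d : Λ → ℕ)
    (σ : ∀ l, G → Matrix (Fin (d l)) (Fin (d l)) K) (hσ : IsIrrFam d σ)
    (ρ : ∀ l, G → Matrix (Fin (d l)) (Fin (d l)) ℂ) (hρ : IsIrrFam d ρ)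
    (hσρ : ∀ l, SameChar F (σ l) (ρ l))
    (v₀ : Fin n → ℂ) (hv₀ : Reg W v₀) (D : StdHk F W v₀ d) (hD : D.Specialises ρ)
    (S : SchurForm F D.schurElt) (k κ : Idx W → K)
    (hκ : ∀ s hs j, κ (idx W s hs j) = k (idx W s hs (-j))) :
    (∃ m : Idx W → ℤ, SameEssential S κ m) ∧
      ∀ m : Idx W → ℤ, SameEssential S κ m → ∀ χ ψ : Λ,
        CMSep V (cPar W V k) (σ χ) (σ ψ) → D.RouSep m χ ψ :=
  Pool.Agent.CMFn.refl_K G K V hV W hW (Pool.Agent.CMFn.mart_of_exc W hW hE) F hF hVW Λ d σ hσ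
    ρ hρ hσρ v₀ hv₀ D hD S k κ hκ

end Pool.Agent.Results.MP_4af2a6_al.Refl
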